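import Pool.Agent.H179R3.HF.MinusVertex
import Pool.Agent.H884R2.HFP.Main

/-!
# Supports of the 2-flows of `1/2`-flow-pairs, for all multigraphs (MP_e59a69_co)

(A) An even edge set `C` of a multigraph `G` is the set of nonzero edges of the 2-flow of a
`1/2`-flow-pair if and only if the edges outside `C` can be oriented so that, of every edge cut
`δ(X)` of `G`, at most three fifths of the edges lie outside `C` and leave `X`.

(B) Let a finite family of pairs of vertices (called links) be given such that every union `X` of
components of `(V, C)` separates an even or odd number `q(X)` of links according to the parity of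
`|δ(X)|`.  If `5 q(X) ≤ |δ(X)| + 1` for all `X` with `|δ(X) ∩ C| < 2 q(X)`, then `C` is the support
of the 2-flow of a `1/2`-flow-pair.

(C) If at most two components of `(V, C)` are left by an odd number of edges and `G` is bridgeless,
then `C` is such a support if and only if `C` meets every 3-edge-cut.

Proof of (B).  The degrees of the graph consisting of the edges outside `C` and the links can be
made even by adding a set of edges of `C`; an Eulerian orientation of the graph obtained gives the
orientation needed in (A).
-/

set_option autoImplicit false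

universe u v w

namespace Pool.Agent.Results.MP_e59a69_co.LinkedComponents
open Finset Pool.Agent.H160R2.HF Pool.Agent.H179R3.HF

variable {V : Type u} {E : Type v} [Fintype V] [Fintype E] [DecidableEq V] [DecidableEq E]
  (G : OrGraph V E)

/-- The edge `e` leaves `X` in the orientation `σ` (`σ e = true`: the given direction of `e`;
`σ e = false`: the opposite direction). -/
def Leaves (σ : E → Bool) (X : Finset V) (e : E) : Prop :=
  (σ e = true ∧ G.t e ∈ X ∧ G.h e ∉ X) ∨ (σ e = false ∧ G.h e ∈ X ∧ G.t e ∉ X)

open Classical in
/-- The number of the edges outside `C` that leave `X` in the orientation `σ`. -/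
noncomputable def leaving (C : Finset E) (σ : E → Bool) (X : Finset V) : ℕ :=
  (univ.filter (fun e => e ∉ C ∧ Leaves G σ X e)).card

/-- `C` is the set of the nonzero edges of the 2-flow of a `1/2`-flow-pair. -/
def IsSupport (C : Finset E) : Prop :=
  ∃ φ₂ φ₄ : E → ℤ, G.IsHalfFlowPair φ₂ φ₄ ∧ ∀ e, φ₂ e ≠ 0 ↔ e ∈ C

/-- The number of the links `{a p, b p}` with exactly one end in `X`. -/
def crossing {P : Type w} [Fintype P] (a b : P → V) (X : Finset V) : ℕ :=
  (univ.filter (fun p => ¬ (a p ∈ X ↔ b p ∈ X))).card

theorem orient_of_support {C : Finset E} (h : IsSupport G C) :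
    ∃ σ : E → Bool, ∀ X : Finset V, 5 * leaving G C σ X ≤ 3 * (G.cut X).card := by
  classical
  obtain ⟨φ₂, φ₄, ⟨_, ⟨h4, hfl⟩, hge⟩, hs⟩ := h
  refine ⟨fun e => decide (0 < φ₄ e), fun X => ?_⟩
  have h0 : ∑ v ∈ X, net G.t G.h φ₄ v = 0 := by
    refine Finset.sum_eq_zero fun v _ => ?_
    unfold net
    rw [hfl v, sub_self]
  rw [net_sum] at h0
  have e1 : ((leaving G C (fun e => decide (0 < φ₄ e)) X : ℕ) : ℤ) =
      ∑ e, if (e ∉ C ∧ Leaves G (fun e => decide (0 < φ₄ e)) X e) then 1 else 0 := by
    unfold leaving
    simp only [Finset.sum_boole]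
  have e2 : ((G.cut X).card : ℤ) = ∑ e, if e ∈ G.cut X then 1 else 0 := by simp
  have key : 5 * ((leaving G C (fun e => decide (0 < φ₄ e)) X : ℕ) : ℤ) -
      3 * ((G.cut X).card : ℤ) ≤ 0 := by
    refine le_trans ?_ (le_of_eq h0)
    rw [e1, e2, Finset.mul_sum, Finset.mul_sum, ← Finset.sum_sub_distrib]
    refine Finset.sum_le_sum fun e _ => ?_
    have hb := h4 e
    push_cast at hb
    rw [abs_le] at hb
    have hg : e ∉ C → 2 ≤ |φ₄ e| := fun he => hge e (by
      by_contra hne
      exact he ((hs e).1 hne))
    by_cases he : e ∈ C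
    · by_cases a : G.t e ∈ X <;> by_cases b : G.h e ∈ X <;>
        simp [a, b, he, OrGraph.cut] <;> omega
    · have hg' := hg he
      rw [le_abs] at hg'
      by_cases a : G.t e ∈ X <;> by_cases b : G.h e ∈ X
      · simp [a, b, he, OrGraph.cut, Leaves]
      · by_cases hp : 0 < φ₄ e
        · simp [a, b, he, OrGraph.cut, Leaves, hp]; omega
        · simp [a, b, he, OrGraph.cut, Leaves, hp]; omega
      · by_cases hp : 0 < φ₄ e
        · simp [a, b, he, OrGraph.cut, Leaves, hp]; omega
        · simp [a, b, he, OrGraph.cut, Leaves, hp]; omega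
      · simp [a, b, he, OrGraph.cut, Leaves]
  omega

theorem support_of_orient {C : Finset E} (hC : ∀ v, Even (G.deg C v)) (σ : E → Bool)
    (h : ∀ X : Finset V, 5 * leaving G C σ X ≤ 3 * (G.cut X).card) : IsSupport G C := by
  classical
  obtain ⟨φ₂, h21, h22⟩ := eulerian G.t G.h C (fun v => hC v)
  obtain ⟨φ₄, h41, h42⟩ := hoffman G.t G.h
    (fun e => if e ∈ C then -3 else if σ e = true then 2 else -3)
    (fun e => if e ∈ C then 3 else if σ e = true then 3 else -2)
    (fun _ => 0) (fun e => by split_ifs <;> simp) (by simp) (by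
      intro X
      have e1 : ((leaving G C σ X : ℕ) : ℤ) =
          ∑ e, if (e ∉ C ∧ Leaves G σ X e) then 1 else 0 := by
        unfold leaving
        simp only [Finset.sum_boole]
      have e2 : ((G.cut X).card : ℤ) = ∑ e, if e ∈ G.cut X then 1 else 0 := by simp
      have hff : ff G.t G.h (fun e => if e ∈ C then -3 else if σ e = true then 2 else -3)
          (fun e => if e ∈ C then 3 else if σ e = true then 3 else -2) (fun _ => 0) X =
          3 * ((G.cut X).card : ℤ) - 5 * ((leaving G C σ X : ℕ) : ℤ) := by
        unfold ff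
        rw [e1, e2, Finset.mul_sum, Finset.mul_sum, ← Finset.sum_sub_distrib,
          Finset.sum_const_zero, zero_add]
        refine Finset.sum_congr rfl fun e _ => ?_
        unfold ce
        by_cases he : e ∈ C
        · by_cases a : G.t e ∈ X <;> by_cases b : G.h e ∈ X <;>
            simp [a, b, he, OrGraph.cut]
        · rcases hσ : σ e with _ | _
          · by_cases a : G.t e ∈ X <;> by_cases b : G.h e ∈ X <;>
              simp [a, b, he, OrGraph.cut, Leaves, hσ]
          · by_cases a : G.t e ∈ X <;> by_cases b : G.h e ∈ X <;>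
              simp [a, b, he, OrGraph.cut, Leaves, hσ]
      have := h X
      rw [hff]
      omega)
  refine ⟨φ₂, φ₄, ⟨⟨fun e => ?_, G.isFlow_of_net h22⟩, ⟨fun e => ?_, G.isFlow_of_net h42⟩,
    fun e he => ?_⟩, fun e => ?_⟩
  · by_cases he : e ∈ C
    · rcases (h21 e).1 he with h | h <;> rw [h] <;> simp
    · rw [(h21 e).2 he]; simp
  · have h1 := h41 e
    rw [abs_le]
    push_cast
    split_ifs at h1 <;> constructor <;> omega
  · have he' : e ∉ C := by
      intro heF
      rcases (h21 e).1 heF with h | h <;> rw [h] at he <;> simp at he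
    have h1 := h41 e
    rw [if_neg he', if_neg he'] at h1
    rw [le_abs]
    split_ifs at h1
    · left; exact h1.1
    · right; omega
  · constructor
    · intro h
      by_contra he
      exact h ((h21 e).2 he)
    · intro he
      rcases (h21 e).1 he with h | h <;> rw [h] <;> simp

/-- `T`-joins inside `C`, for a set `T` that is even on all unions of components of `(V, C)`. -/
theorem exists_Tjoin_gen (C : Finset E) (T : V → ZMod 2)
    (hT : ∀ X : Finset V, G.cut X ∩ C = ∅ → ∑ w ∈ X, T w = 0) :
    ∃ j : E → ZMod 2, (∀ g, g ∉ C → j g = 0) ∧ ∀ w, bd G j w = T w := by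
  classical
  let r : V → V := fun w => ((G.sub C).connectedComponentMk w).out
  have hr : ∀ w, (G.sub C).Reachable w (r w) := by
    intro w
    exact (SimpleGraph.ConnectedComponent.exact (Quot.out_eq ((G.sub C).connectedComponentMk w))).symm
  have hrc : ∀ w w', (G.sub C).Reachable w w' → r w = r w' := by
    intro w w' h
    have : (G.sub C).connectedComponentMk w = (G.sub C).connectedComponentMk w' :=
      SimpleGraph.ConnectedComponent.sound h
    show ((G.sub C).connectedComponentMk w).out = ((G.sub C).connectedComponentMk w').out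
    rw [this]
  have h1 : ∀ w, ∃ j : E → ZMod 2, (∀ g, g ∉ C → j g = 0) ∧
      ∀ x, bd G j x = (if w = x then 1 else 0) + (if r w = x then 1 else 0) :=
    fun w => path_join G C (hr w)
  choose j hj hb using h1
  refine ⟨fun g => ∑ w, T w * j w g, fun g hg => ?_, fun x => ?_⟩
  · exact Finset.sum_eq_zero fun w _ => by rw [hj w g hg, mul_zero]
  · rw [bd_sum]
    have h2 : ∀ w, bd G (fun g => T w * j w g) x =
        (if w = x then T w else 0) + (if r w = x then T w else 0) := by
      intro w
      rw [bd_mul, hb, mul_add]
      congr 1 <;> split_ifs <;> simp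
    rw [Finset.sum_congr rfl fun w _ => h2 w, Finset.sum_add_distrib,
      Finset.sum_ite_eq' univ x T, ← Finset.sum_filter, hT _ ?_]
    · simp
    · rw [Finset.eq_empty_iff_forall_notMem]
      intro e he
      rw [Finset.mem_inter, OrGraph.cut, Finset.mem_filter] at he
      obtain ⟨⟨_, h3⟩, h4⟩ := he
      apply h3
      have h5 : r (G.t e) = r (G.h e) := by
        by_cases h6 : G.t e = G.h e
        · rw [h6]
        · apply hrc
          apply SimpleGraph.Adj.reachable
          rw [OrGraph.sub, SimpleGraph.fromRel_adj]
          exact ⟨h6, Or.inl ⟨e, h4, rfl, rfl⟩⟩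
      simp only [Finset.mem_filter, Finset.mem_univ, true_and]
      rw [h5]

theorem cut_split (C : Finset E) (X : Finset V) :
    (G.cut X).card = (G.cut X ∩ C).card + (G.cut X ∩ Cᶜ).card :=
  Pool.Agent.H884R2.HFP.cut_card G C X

/-- The link criterion, in terms of orientations. -/
theorem orient_of_links {C : Finset E} {P : Type w} [Fintype P] (a b : P → V)
    (hpar : ∀ X : Finset V, G.cut X ∩ C = ∅ → Even ((G.cut X).card + crossing a b X))
    (hq : ∀ X : Finset V, (G.cut X ∩ C).card < 2 * crossing a b X →
      5 * crossing a b X ≤ (G.cut X).card + 1) :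
    ∃ σ : E → Bool, ∀ X : Finset V, 5 * leaving G C σ X ≤ 3 * (G.cut X).card := by
  classical
  -- the parities to be corrected inside `C`
  let T : V → ZMod 2 := fun w => (G.deg Cᶜ w : ZMod 2) +
    (((univ.filter (fun p => a p = w)).card : ZMod 2) +
      ((univ.filter (fun p => b p = w)).card : ZMod 2))
  have hends : ∀ (X : Finset V), ∑ w ∈ X, ((univ.filter (fun p => a p = w)).card +
      (univ.filter (fun p => b p = w)).card) =
      2 * (univ.filter (fun p => a p ∈ X ∧ b p ∈ X)).card + crossing a b X := by
    intro X
    rw [Finset.sum_add_distrib]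
    have h1 : ∀ k : P → V, ∑ w ∈ X, (univ.filter (fun p => k p = w)).card =
        ∑ p, if k p ∈ X then 1 else 0 := by
      intro k
      simp_rw [Finset.card_filter]
      rw [Finset.sum_comm]
      refine Finset.sum_congr rfl fun p _ => ?_
      simp
    rw [h1, h1]
    unfold crossing
    rw [Finset.card_filter, Finset.card_filter, Finset.mul_sum, ← Finset.sum_add_distrib,
      ← Finset.sum_add_distrib]
    refine Finset.sum_congr rfl fun p _ => ?_
    by_cases h2 : a p ∈ X <;> by_cases h3 : b p ∈ X <;> simp [h2, h3]
  have hT : ∀ X : Finset V, G.cut X ∩ C = ∅ → ∑ w ∈ X, T w = 0 := by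
    intro X hX
    have h1 : ∑ w ∈ X, T w = ((∑ w ∈ X, G.deg Cᶜ w + ∑ w ∈ X,
        ((univ.filter (fun p => a p = w)).card + (univ.filter (fun p => b p = w)).card) : ℕ) :
          ZMod 2) := by
      push_cast
      rw [← Finset.sum_add_distrib]
    rw [h1, hends, G.handshake Cᶜ X]
    have h2 := hpar X hX
    have h3 := cut_split G C X
    rw [hX, Finset.card_empty, zero_add] at h3
    rw [h3] at h2
    rw [ZMod.natCast_eq_zero_iff_even]
    obtain ⟨k, hk⟩ := h2
    refine ⟨(Cᶜ.filter (fun e => G.t e ∈ X ∧ G.h e ∈ X)).card +
      (univ.filter (fun p => a p ∈ X ∧ b p ∈ X)).card + k, ?_⟩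
    omega
  obtain ⟨j, hj, hjb⟩ := exists_Tjoin_gen G C T hT
  let B : Finset E := univ.filter (fun g => j g ≠ 0)
  have hBC : B ⊆ C := by
    intro g hg
    by_contra h
    exact (Finset.mem_filter.1 hg).2 (hj g h)
  have hjB : j = fun g => if g ∈ B then 1 else 0 := by
    funext g
    have h1 : ∀ y : ZMod 2, y ≠ 0 → y = 1 := by decide
    by_cases h : j g = 0
    · simp [B, h]
    · simp [B, h, h1 _ h]
  have hdisj : Disjoint Cᶜ B :=
    Finset.disjoint_of_subset_right hBC disjoint_compl_left
  have hdegMB : ∀ v, G.deg (Cᶜ ∪ B) v = G.deg Cᶜ v + G.deg B v := by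
    intro v
    unfold OrGraph.deg
    rw [Finset.filter_union, Finset.filter_union, Finset.card_union_of_disjoint,
      Finset.card_union_of_disjoint]
    · ring
    · exact Finset.disjoint_filter_filter hdisj
    · exact Finset.disjoint_filter_filter hdisj
  have heven : ∀ v, Even (G.deg (Cᶜ ∪ B) v + ((univ.filter (fun p => a p = v)).card +
      (univ.filter (fun p => b p = v)).card)) := by
    intro v
    rw [← ZMod.natCast_eq_zero_iff_even, hdegMB]
    have h1 := hjb v
    rw [hjB, bd_indicator] at h1
    push_cast
    rw [h1]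
    show (G.deg Cᶜ v : ZMod 2) + ((G.deg Cᶜ v : ZMod 2) +
      (((univ.filter (fun p => a p = v)).card : ZMod 2) +
      ((univ.filter (fun p => b p = v)).card : ZMod 2))) +
      (((univ.filter (fun p => a p = v)).card : ZMod 2) +
      ((univ.filter (fun p => b p = v)).card : ZMod 2)) = 0
    have h2 : ∀ x y : ZMod 2, x + (x + y) + y = 0 := by decide
    exact h2 _ _
  let t' : E ⊕ P → V := Sum.elim G.t a
  let h' : E ⊕ P → V := Sum.elim G.h b
  let F' : Finset (E ⊕ P) := (Cᶜ ∪ B).disjSum univ
  have hfil : ∀ (k : E → V) (l : P → V) (v : V),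
      (F'.filter (fun o => Sum.elim k l o = v)).card =
        ((Cᶜ ∪ B).filter (fun e => k e = v)).card + (univ.filter (fun p => l p = v)).card := by
    intro k l v
    rw [Finset.card_filter, Finset.card_filter, Finset.card_filter]
    simp only [F']
    rw [Finset.sum_disjSum]
    rfl
  obtain ⟨χ, hχ1, hχ2⟩ := eulerian t' h' F' (fun v => by
    simp only [t', h']
    rw [hfil, hfil]
    have h1 := heven v
    unfold OrGraph.deg at h1
    obtain ⟨k, hk⟩ := h1
    exact ⟨k, by omega⟩)
  let ψ : E → ℤ := fun e => if e ∈ Cᶜ then χ (Sum.inl e) else 0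
  have hψ1 : ∀ e ∈ Cᶜ, ψ e = 1 ∨ ψ e = -1 := by
    intro e he
    simp only [ψ, he, if_true]
    exact (hχ1 (Sum.inl e)).1 (by simp only [F', Finset.inl_mem_disjSum]; exact Finset.mem_union_left _ he)
  have hψ0 : ∀ e, e ∉ Cᶜ → ψ e = 0 := by
    intro e he
    simp only [ψ, he, if_false]
  have hbound : ∀ X : Finset V,
      |∑ v ∈ X, net G.t G.h ψ v| ≤ (G.cut X ∩ B).card + crossing a b X := by
    intro X
    have h0 : ∑ v ∈ X, net t' h' χ v = 0 := by
      rw [Finset.sum_congr rfl (fun v _ => hχ2 v)]; simp
    rw [net_sum, Fintype.sum_sum_type] at h0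
    have hsplit : ∀ e, ((if t' (Sum.inl e) ∈ X then χ (Sum.inl e) else 0) -
        (if h' (Sum.inl e) ∈ X then χ (Sum.inl e) else 0)) =
        ((if G.t e ∈ X then ψ e else 0) - (if G.h e ∈ X then ψ e else 0)) +
        ((if G.t e ∈ X then (if e ∈ B then χ (Sum.inl e) else 0) else 0) -
          (if G.h e ∈ X then (if e ∈ B then χ (Sum.inl e) else 0) else 0)) := by
      intro e
      change ((if G.t e ∈ X then χ (Sum.inl e) else 0) -
        (if G.h e ∈ X then χ (Sum.inl e) else 0)) = _
      by_cases ha : e ∈ Cᶜ
      · have hb : e ∉ B := Finset.disjoint_left.1 hdisj ha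
        simp only [ψ, ha, hb, if_true, if_false]
        split_ifs <;> simp
      · by_cases hb : e ∈ B
        · simp only [ψ, ha, hb, if_true, if_false]
          split_ifs <;> simp
        · have := (hχ1 (Sum.inl e)).2 (by
            simp only [F', Finset.inl_mem_disjSum, Finset.mem_union]
            tauto)
          simp only [ψ, ha, hb, if_false, this]
          simp
    rw [Finset.sum_congr rfl (fun e _ => hsplit e), Finset.sum_add_distrib, ← net_sum,
      ← net_sum] at h0
    have hbd := G.abs_net_le (fun e => if e ∈ B then χ (Sum.inl e) else 0) B (by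
      intro e he
      simp only [he, if_true]
      rcases (hχ1 (Sum.inl e)).1 (by
        simp only [F', Finset.inl_mem_disjSum]
        exact Finset.mem_union_right _ he) with h | h <;> rw [h] <;> simp) (by
      intro e he
      simp [he]) X
    have hN : |∑ p, ((if t' (Sum.inr p) ∈ X then χ (Sum.inr p) else 0) -
        (if h' (Sum.inr p) ∈ X then χ (Sum.inr p) else 0))| ≤ crossing a b X := by
      have h2 : ((crossing a b X : ℕ) : ℤ) =
          ∑ p, if ¬ (a p ∈ X ↔ b p ∈ X) then 1 else 0 := by
        unfold crossing
        simp only [Finset.sum_boole]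
      rw [h2]
      refine (Finset.abs_sum_le_sum_abs _ _).trans (Finset.sum_le_sum fun p _ => ?_)
      change |(if a p ∈ X then χ (Sum.inr p) else 0) -
        (if b p ∈ X then χ (Sum.inr p) else 0)| ≤ _
      have := (hχ1 (Sum.inr p)).1 (by simp [F'])
      rcases this with h | h <;> by_cases ha : a p ∈ X <;> by_cases hb : b p ∈ X <;>
        simp [ha, hb, h]
    rw [abs_le] at hbd hN ⊢
    constructor <;> linarith [hbd.1, hbd.2, hN.1, hN.2]
  refine ⟨fun e => decide (ψ e = 1), fun X => ?_⟩
  -- the net outflow in terms of the number of leaving edges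
  have hnet : ∑ v ∈ X, net G.t G.h ψ v =
      2 * ((leaving G C (fun e => decide (ψ e = 1)) X : ℕ) : ℤ) - ((G.cut X ∩ Cᶜ).card : ℤ) := by
    have e1 : ((leaving G C (fun e => decide (ψ e = 1)) X : ℕ) : ℤ) =
        ∑ e, if (e ∉ C ∧ Leaves G (fun e => decide (ψ e = 1)) X e) then 1 else 0 := by
      unfold leaving
      simp only [Finset.sum_boole]
    have e2 : ((G.cut X ∩ Cᶜ).card : ℤ) = ∑ e, if e ∈ G.cut X ∩ Cᶜ then 1 else 0 := by
      simp only [Finset.sum_boole]
      congr 2
      ext e; simp
    rw [net_sum, e1, e2, Finset.mul_sum, ← Finset.sum_sub_distrib]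
    refine Finset.sum_congr rfl fun e _ => ?_
    by_cases he : e ∈ C
    · have h0 : ψ e = 0 := hψ0 e (by simpa using he)
      by_cases ha : G.t e ∈ X <;> by_cases hb : G.h e ∈ X <;> simp [ha, hb, he, h0]
    · rcases hψ1 e (by simpa using he) with h | h
      · by_cases ha : G.t e ∈ X <;> by_cases hb : G.h e ∈ X <;>
          simp [ha, hb, he, OrGraph.cut, Leaves, h]
      · have h' : ψ e ≠ 1 := by rw [h]; decide
        by_cases ha : G.t e ∈ X <;> by_cases hb : G.h e ∈ X <;>
          simp [ha, hb, he, OrGraph.cut, Leaves, h]
  have hL : leaving G C (fun e => decide (ψ e = 1)) X ≤ (G.cut X ∩ Cᶜ).card := by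
    unfold leaving
    apply Finset.card_le_card
    intro e he
    rw [Finset.mem_filter] at he
    obtain ⟨_, he1, he2⟩ := he
    rw [Finset.mem_inter, Finset.mem_compl, OrGraph.cut, Finset.mem_filter]
    refine ⟨⟨Finset.mem_univ _, ?_⟩, he1⟩
    rcases he2 with ⟨_, h1, h2⟩ | ⟨_, h1, h2⟩
    · exact fun h => h2 (h.1 h1)
    · exact fun h => h2 (h.2 h1)
  have hbf : (G.cut X ∩ B).card ≤ (G.cut X ∩ C).card :=
    Finset.card_le_card (Finset.inter_subset_inter_left hBC)
  have hc := cut_split G C X
  have hb1 := hbound X
  rw [hnet, abs_le] at hb1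
  have hqX := hq X
  by_cases hcase : (G.cut X ∩ C).card < 2 * crossing a b X
  · have := hqX hcase
    omega
  · omega

/-- **Theorem.**  Let `G` be a finite multigraph and `C` an even edge set.

(A) `C` is the set of nonzero edges of the 2-flow of a `1/2`-flow-pair if and only if the edges
outside `C` have an orientation such that for every vertex set `X` at most `3/5` of the number
`|δ(X)|` of all edges of the cut `δ(X)` lie outside `C` and leave `X`.

(B) Let `{a p, b p}`, `p ∈ P`, be finitely many pairs of vertices and let `q(X)` be the number of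
these pairs separated by `X`.  If `|δ(X)| + q(X)` is even for all unions `X` of components of
`(V, C)`, and `5 q(X) ≤ |δ(X)| + 1` for all `X` with `|δ(X) ∩ C| < 2 q(X)`, then `C` is the set of
nonzero edges of the 2-flow of a `1/2`-flow-pair.

(C) Let `G` be bridgeless and let `u`, `v` be vertices such that every union of components of
`(V, C)` that contains both or none of `u`, `v` is left by an even number of edges.  Then `C` is the
set of nonzero edges of the 2-flow of a `1/2`-flow-pair if and only if `C` meets every
3-edge-cut. -/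
theorem result (V : Type u) (E : Type v) [Fintype V] [Fintype E] [DecidableEq V] [DecidableEq E]
    (G : OrGraph V E) (C : Finset E) (hC : ∀ v, Even (G.deg C v)) :
    (IsSupport G C ↔
      ∃ σ : E → Bool, ∀ X : Finset V, 5 * leaving G C σ X ≤ 3 * (G.cut X).card) ∧
    (∀ (P : Type w) [Fintype P] (a b : P → V),
      (∀ X : Finset V, G.cut X ∩ C = ∅ → Even ((G.cut X).card + crossing a b X)) →
      (∀ X : Finset V, (G.cut X ∩ C).card < 2 * crossing a b X →
        5 * crossing a b X ≤ (G.cut X).card + 1) → IsSupport G C) ∧
    (G.Bridgeless → ∀ u v : V,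
      (∀ X : Finset V, G.cut X ∩ C = ∅ → (u ∈ X ↔ v ∈ X) → Even (G.cut X).card) →
      (IsSupport G C ↔ ∀ X : Finset V, (G.cut X).card = 3 → (G.cut X ∩ C).Nonempty)) := by
  refine ⟨⟨orient_of_support G, fun ⟨σ, h⟩ => support_of_orient G hC σ h⟩, ?_, ?_⟩
  · intro P _ a b hpar hq
    obtain ⟨σ, h⟩ := orient_of_links G a b hpar hq
    exact support_of_orient G hC σ h
  · intro hB u v huv
    constructor
    · rintro ⟨φ₂, φ₄, h, hs⟩ X hX
      exact G.cut_meets C h hs X hX
    · intro h3
      have hevC : ∀ X : Finset V, Even (G.cut X ∩ C).card := by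
        intro X
        have h1 := G.handshake C X
        have h2 : Even (∑ w ∈ X, G.deg C w) := Finset.even_sum _ (fun w _ => hC w)
        rw [h1] at h2
        obtain ⟨k, hk⟩ := h2
        exact ⟨k - (C.filter (fun e => G.t e ∈ X ∧ G.h e ∈ X)).card, by omega⟩
      have hpc : ∀ X : Finset V,
          ((G.cut X).card : ZMod 2) = ∑ w ∈ X, (G.deg univ w : ZMod 2) := by
        intro X
        have h1 := G.handshake univ X
        rw [Finset.inter_univ] at h1
        rw [← Nat.cast_sum, h1]
        push_cast
        have h2 : (2 : ZMod 2) = 0 := by decide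
        rw [h2, zero_mul, zero_add]
      have hne1 := G.cut_card_ne_one hB
      by_cases hodd : ∃ X₀ : Finset V, G.cut X₀ ∩ C = ∅ ∧ ¬ Even (G.cut X₀).card
      · obtain ⟨X₀, h01, h02⟩ := hodd
        have hX₀ : ¬ (u ∈ X₀ ↔ v ∈ X₀) := fun h => h02 (huv X₀ h01 h)
        have hsep : ∀ X : Finset V, G.cut X ∩ C = ∅ → ¬ (u ∈ X ↔ v ∈ X) →
            ¬ Even (G.cut X).card := by
          intro X hX huvX hev
          have hmem : ∀ (Z : Finset V), G.cut Z ∩ C = ∅ → ∀ e ∈ C, (G.t e ∈ Z ↔ G.h e ∈ Z) := by
            intro Z hZ e he
            by_contra hcon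
            have h1 : e ∈ G.cut Z ∩ C := by
              rw [Finset.mem_inter, OrGraph.cut, Finset.mem_filter]
              exact ⟨⟨Finset.mem_univ _, hcon⟩, he⟩
            rw [hZ] at h1
            exact Finset.notMem_empty e h1
          have hYC : G.cut (symmDiff X X₀) ∩ C = ∅ := by
            rw [Finset.eq_empty_iff_forall_notMem]
            intro e he
            rw [Finset.mem_inter, OrGraph.cut, Finset.mem_filter] at he
            obtain ⟨⟨_, h1⟩, h2⟩ := he
            apply h1
            have h3 := hmem X hX e h2
            have h4 := hmem X₀ h01 e h2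
            rw [Finset.mem_symmDiff, Finset.mem_symmDiff, h3, h4]
          have hYuv : (u ∈ symmDiff X X₀ ↔ v ∈ symmDiff X X₀) := by
            rw [Finset.mem_symmDiff, Finset.mem_symmDiff]
            tauto
          have hYe := huv _ hYC hYuv
          have hsum : ((G.cut (symmDiff X X₀)).card : ZMod 2) =
              ((G.cut X).card : ZMod 2) + ((G.cut X₀).card : ZMod 2) := by
            rw [hpc, hpc, hpc]
            have h1 : ∀ Z : Finset V, ∑ w ∈ Z, (G.deg univ w : ZMod 2) =
                ∑ w, if w ∈ Z then (G.deg univ w : ZMod 2) else 0 := by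
              intro Z
              rw [Finset.sum_ite_mem, Finset.univ_inter]
            rw [h1, h1, h1, ← Finset.sum_add_distrib]
            refine Finset.sum_congr rfl fun w _ => ?_
            have h2 := z2_add_self (G.deg univ w : ZMod 2)
            by_cases hw1 : w ∈ X <;> by_cases hw2 : w ∈ X₀ <;>
              simp [Finset.mem_symmDiff, hw1, hw2, h2]
          rw [← ZMod.natCast_eq_zero_iff_even] at hYe hev h02
          rw [hYe, hev, zero_add] at hsum
          exact h02 hsum.symm
        have hcr : ∀ X : Finset V, crossing (P := PUnit.{w+1}) (fun _ => u) (fun _ => v) X =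
            if (u ∈ X ↔ v ∈ X) then 0 else 1 := by
          intro X
          unfold crossing
          by_cases h : (u ∈ X ↔ v ∈ X)
          · rw [if_pos h, Finset.card_eq_zero, Finset.filter_eq_empty_iff]
            intro _ _
            exact not_not.2 h
          · rw [if_neg h, Finset.filter_true_of_mem (fun _ _ => h)]
            simp
        obtain ⟨σ, h⟩ := orient_of_links G (C := C) (P := PUnit.{w+1}) (fun _ => u) (fun _ => v)
          (by
            intro X hX
            rw [hcr]
            by_cases h : (u ∈ X ↔ v ∈ X)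
            · rw [if_pos h, add_zero]
              exact huv X hX h
            · rw [if_neg h]
              have h1 := hsep X hX h
              rw [Nat.not_even_iff_odd] at h1
              exact h1.add_one)
          (by
            intro X hlt
            rw [hcr] at hlt ⊢
            by_cases h : (u ∈ X ↔ v ∈ X)
            · rw [if_pos h] at hlt
              omega
            · rw [if_neg h] at hlt ⊢
              have h1 := hevC X
              have h0 : (G.cut X ∩ C).card = 0 := by
                obtain ⟨k, hk⟩ := h1
                omega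
              have h0' := Finset.card_eq_zero.1 h0
              have h4 := hsep X h0' h
              have h5 := hne1 X
              have h6 : (G.cut X).card ≠ 3 := by
                intro h7
                have h8 := h3 X h7
                rw [h0'] at h8
                exact Finset.not_nonempty_empty h8
              rw [Nat.not_even_iff_odd] at h4
              obtain ⟨k, hk⟩ := h4
              omega)
        exact support_of_orient G hC σ h
      · push Not at hodd
        obtain ⟨σ, h⟩ := orient_of_links G (C := C) (P := PEmpty.{w+1}) (fun p => p.elim)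
          (fun p => p.elim)
          (by
            intro X hX
            have h1 := hodd X hX
            simpa [crossing] using h1)
          (by
            intro X hlt
            simp [crossing] at hlt)
        exact support_of_orient G hC σ h

end Pool.Agent.Results.MP_e59a69_co.LinkedComponents
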